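import Pool.Agent.P8H6.Irw.Out

/-!
# The values `λ(n!)`, products of consecutive values of moving length, and irrational phases in short windows

For every irrational `α` the sequences `λ(n!)`, `λ(n + 1) λ(n + 2) ... λ(2 n)` and all products of values of `λ` at
linear forms and at factorials of linear forms (with some factor which does not cancel) have no frequency `α`, at
almost all scales and in almost all windows of slowly growing length. For `λ(n!)` this says that the sum over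
`k ≤ K` of `λ(n) λ(n + 1) ... λ(n + k - 1) e(α k)` is `o(K)` for almost all `n`.

Proof: the products `λ((n + h)!) λ((n + h')!)` are products of a fixed number of values of `λ`. So the squares of the
window sums of `λ(n!) e(α n)` are combinations of products of a fixed number of values of `λ` with the phase
`e(2 α n)`, and they are small on average with slowly varying weights (the entropy decrement argument
`Pool.Agent.Y958.TC` of the starting files with weights and with the digits of `α`, in `Pool.Agent.P8H6.Irw.Two`). The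
window sums vary slowly themselves, and their conjugates are a combination of their squares with slowly varying
weights except where they are small.
-/

set_option autoImplicit false

namespace Pool.Agent.Results.MP_a14ce1_nt.FactorialPhases

open Finset Filter Topology

/-- `e(x) = exp (2 π i x)`. -/
noncomputable def e (x : ℝ) : ℂ := Complex.exp (2 * Real.pi * Complex.I * x)

/-- The Liouville function. -/
def lam (n : ℕ) : ℤ := (-1) ^ ArithmeticFunction.cardFactors n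

/-- `λ(n) λ(n + 1) ... λ(n + k - 1)`. -/
def P (n k : ℕ) : ℤ := ∏ i ∈ range k, lam (n + i)

/-- `S_k(N)`. -/
def S (k N : ℕ) : ℤ := ∑ n ∈ Icc 1 N, P n k

/-- The product of the values of `λ` at the factorials of `a_1 n + b_1, ..., a_r n + b_r` and at
`c_1 n + d_1, ..., c_s n + d_s`. -/
def W {r s : ℕ} (a b : Fin r → ℕ) (c d : Fin s → ℕ) (n : ℕ) : ℤ :=
  (∏ j, lam (a j * n + b j).factorial) * ∏ i, lam (c i * n + d i)

open Classical in
/-- `E` has logarithmic density zero. -/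
def LogDensityZero (E : Set ℕ) : Prop :=
  Tendsto (fun X : ℕ => (∑ n ∈ Icc 1 X, if n ∈ E then (1 : ℝ) / n else 0) / Real.log X) atTop (𝓝 0)

lemma flip_lam : Pool.Agent.P8H6.Irr.Flip lam := by
  constructor
  · intro n
    unfold lam
    rw [abs_pow, abs_neg, abs_one, one_pow]
  · refine ⟨0, fun _ => -1, fun p hp _ => ⟨by norm_num, fun n hn => ?_⟩⟩
    have hn0 : n ≠ 0 := by
      rintro rfl
      exact hn (dvd_zero p)
    unfold lam
    rw [ArithmeticFunction.cardFactors_mul hp.ne_zero hn0, ArithmeticFunction.cardFactors_apply_prime hp,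
      pow_add, pow_one]

lemma lam_abs (n : ℕ) : |lam n| = 1 := by
  unfold lam
  rw [abs_pow, abs_neg, abs_one, one_pow]

lemma lam_mul {m n : ℕ} (hm : m ≠ 0) (hn : n ≠ 0) : lam (m * n) = lam m * lam n := by
  unfold lam
  rw [ArithmeticFunction.cardFactors_mul hm hn, pow_add]

lemma lam_sq (n : ℕ) : lam n * lam n = 1 := by
  rw [← abs_mul_abs_self, lam_abs]
  rfl

lemma fac_eq (n : ℕ) : Pool.Agent.P8H6.Irw.fac lam n = (lam n.factorial : ℝ) := by
  induction n with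
  | zero =>
    unfold Pool.Agent.P8H6.Irw.fac
    simp [lam]
  | succ n ih =>
    unfold Pool.Agent.P8H6.Irw.fac at ih ⊢
    rw [prod_Icc_succ_top (by omega), ih, Nat.factorial_succ, lam_mul (by omega) (Nat.factorial_ne_zero n)]
    push_cast
    ring

lemma P_eq (n k : ℕ) : P (n + 1) k = lam n.factorial * lam (n + k).factorial := by
  induction k with
  | zero =>
    unfold P
    rw [range_zero, prod_empty, add_zero, lam_sq]
  | succ k ih =>
    have h1 : P (n + 1) (k + 1) = P (n + 1) k * lam (n + 1 + k) := by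
      unfold P
      rw [prod_range_succ]
    rw [h1, ih, show n + (k + 1) = n + k + 1 by ring, Nat.factorial_succ, lam_mul (by omega) (Nat.factorial_ne_zero _),
      show n + 1 + k = n + k + 1 by ring]
    ring

/-- the function of `Pool.Agent.P8H6.Irw` for a product of values -/
noncomputable def Wr {r s : ℕ} (a b : Fin r → ℕ) (c d : Fin s → ℕ) (n : ℕ) : ℝ :=
  (∏ j, Pool.Agent.P8H6.Irw.fac lam (a j * n + b j)) * ∏ i, (lam (c i * n + d i) : ℝ)

lemma Wr_eq {r s : ℕ} (a b : Fin r → ℕ) (c d : Fin s → ℕ) (n : ℕ) : Wr a b c d n = (W a b c d n : ℝ) := by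
  unfold Wr W
  push_cast
  rw [prod_congr rfl fun j _ => fac_eq _]

lemma Wr_QL {r s : ℕ} (a b : Fin r → ℕ) (c d : Fin s → ℕ) (ha : ∀ j, 1 ≤ a j) (hc : ∀ i, 1 ≤ c i) :
    Pool.Agent.P8H6.Irw.QL (Wr a b c d) :=
  (Pool.Agent.P8H6.Irw.QL.prod univ (fun j n => Pool.Agent.P8H6.Irw.fac lam (a j * n + b j))
    (fun j _ => Pool.Agent.P8H6.Irw.QL.fac flip_lam (fun n _ => lam_abs n) (ha j) (b j))).mul
  (Pool.Agent.P8H6.Irw.QL.prod univ (fun i n => (lam (c i * n + d i) : ℝ))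
    (fun i _ => Pool.Agent.P8H6.Irw.QL.val flip_lam (hc i) (d i)))

lemma e_add (x y : ℝ) : e (x + y) = e x * e y := by
  unfold e
  rw [← Complex.exp_add]
  congr 1
  push_cast
  ring

lemma e_norm (x : ℝ) : ‖e x‖ = 1 := by
  unfold e
  rw [show (2 * Real.pi * Complex.I * x : ℂ) = ((2 * Real.pi * x : ℝ) : ℂ) * Complex.I by push_cast; ring]
  exact Complex.norm_exp_ofReal_mul_I _

/-- Let `α 0, α 1, ...` be irrational numbers and let `K 0, K 1, ...` be functions with `K j N ≤ N`, which tend to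
infinity, as slowly as you wish. There is a set `E` of logarithmic density zero such that for every `α = α i`, every
`K = K j`, every `ε > 0` and all large `N` outside `E`:

(1) the sum over `n ≤ N` of `|∑_{k ≤ K(N)} λ(n) λ(n + 1) ... λ(n + k - 1) e(α k)|` is at most `ε K(N) N`, and so
`|∑_{k ≤ K(N)} S_k(N) e(α k)| ≤ ε K(N) N`;

(2) for all `Y ≤ X ≤ N` the sums over `Y < n ≤ X` of `λ(n!) e(α n)` and of `λ(n + 1) λ(n + 2) ... λ(2 n) e(α n)` are at
most `ε N` in absolute value;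

(3) the same holds for the products `W(n)` of the values of `λ` at `(a_1 n + b_1)!, ..., (a_r n + b_r)!` and at
`c_1 n + d_1, ..., c_s n + d_s`, where `a_i, c_i ≥ 1`, if some number `m` occurs an odd number of times among
`a_1, ..., a_r` (otherwise `W(n)` is a product of a fixed number of values of `λ` at linear forms): the sum over
`n ≤ N` of `|∑_{h ≤ K(N)} W(n + h) e(α h)|` is at most `ε K(N) N`, and `|∑_{Y < n ≤ X} W(n) e(α n)| ≤ ε N` for all
`Y ≤ X ≤ N`.

How large `N` has to be depends on `ε`, `i`, `j` and, in (3), the linear forms; `E` does not. -/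
theorem result (α : ℕ → ℝ) (hα : ∀ i, Irrational (α i)) (K : ℕ → ℕ → ℕ) (hK : ∀ j, Tendsto (K j) atTop atTop)
    (hKN : ∀ j N, K j N ≤ N) :
    ∃ E : Set ℕ, LogDensityZero E ∧
      (∀ i j : ℕ, ∀ ε : ℝ, 0 < ε → ∃ N₀ : ℕ, ∀ N : ℕ, N₀ ≤ N → N ∉ E →
        ∑ n ∈ Icc 1 N, ‖∑ k ∈ Icc 1 (K j N), (P n k : ℂ) * e (α i * k)‖ ≤ ε * K j N * N ∧
        ‖∑ k ∈ Icc 1 (K j N), (S k N : ℂ) * e (α i * k)‖ ≤ ε * K j N * N) ∧
      (∀ i : ℕ, ∀ ε : ℝ, 0 < ε → ∃ N₀ : ℕ, ∀ N : ℕ, N₀ ≤ N → N ∉ E → ∀ Y X : ℕ, Y ≤ X → X ≤ N →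
        ‖∑ n ∈ Ioc Y X, (lam n.factorial : ℂ) * e (α i * n)‖ ≤ ε * N ∧
        ‖∑ n ∈ Ioc Y X, (P (n + 1) n : ℂ) * e (α i * n)‖ ≤ ε * N) ∧
      (∀ (r s : ℕ) (a b : Fin r → ℕ) (c d : Fin s → ℕ), (∀ j, 1 ≤ a j) → (∀ i, 1 ≤ c i) →
        (∃ m : ℕ, Odd (univ.filter (fun j => a j = m)).card) → ∀ i j : ℕ, ∀ ε : ℝ, 0 < ε →
        ∃ N₀ : ℕ, ∀ N : ℕ, N₀ ≤ N → N ∉ E →
          ∑ n ∈ Icc 1 N, ‖∑ h ∈ Icc 1 (K j N), (W a b c d (n + h) : ℂ) * e (α i * h)‖ ≤ ε * K j N * N ∧
          ∀ Y X : ℕ, Y ≤ X → X ≤ N → ‖∑ n ∈ Ioc Y X, (W a b c d n : ℂ) * e (α i * n)‖ ≤ ε * N) := by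
  -- the countable family
  set V : (Σ r : ℕ, Σ s : ℕ, (Fin r → ℕ × ℕ) × (Fin s → ℕ × ℕ)) → ℕ → ℝ := fun z =>
    Wr (fun j => (z.2.2.1 j).1 + 1) (fun j => (z.2.2.1 j).2) (fun i => (z.2.2.2 i).1 + 1) (fun i => (z.2.2.2 i).2)
    with hV
  have hVQ : ∀ z, Pool.Agent.P8H6.Irw.QL (V z) := fun z => Wr_QL _ _ _ _ (fun j => by omega) (fun i => by omega)
  obtain ⟨E₁, hE₁, h1⟩ := Pool.Agent.P8H6.Irw.out V hVQ α hα K hK hKN
  obtain ⟨E₂, hE₂, h2⟩ := Pool.Agent.P8H6.Irw.out_long V hVQ α hα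
  -- the sequences with the phase
  have hee : ∀ x, Pool.Agent.P8H6.Irw.ee x = e x := by
    intro x
    unfold Pool.Agent.P8H6.Irw.ee e
    rfl
  have hZ : ∀ (r s : ℕ) (a b : Fin r → ℕ) (c d : Fin s → ℕ), (∀ j, 1 ≤ a j) → (∀ i, 1 ≤ c i) →
      ∃ z, ∀ i n, Pool.Agent.P8H6.Irw.ZZ (V z) (α i) n = (W a b c d n : ℂ) * e (α i * n) := by
    intro r s a b c d ha hc
    refine ⟨⟨r, s, fun j => (a j - 1, b j), fun i => (c i - 1, d i)⟩, fun i n => ?_⟩
    have ha' : (fun j => a j - 1 + 1) = a := funext fun j => by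
      have := ha j
      omega
    have hc' : (fun j => c j - 1 + 1) = c := funext fun j => by
      have := hc j
      omega
    unfold Pool.Agent.P8H6.Irw.ZZ
    rw [hV]
    simp only [ha', hc']
    rw [Wr_eq, hee]
    push_cast
    rfl
  -- short windows
  have hshort : ∀ (r s : ℕ) (a b : Fin r → ℕ) (c d : Fin s → ℕ), (∀ j, 1 ≤ a j) → (∀ i, 1 ≤ c i) →
      ∀ i j : ℕ, ∀ ε : ℝ, 0 < ε → ∀ t : ℕ, ∃ N₀ : ℕ, ∀ N : ℕ, N₀ ≤ N → N ∉ E₁ →
        ∑ n ∈ range N, ‖∑ h ∈ range (K j N), (W a b c d (n + t + h) : ℂ) * e (α i * h)‖ ≤ ε * K j N * N := by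
    intro r s a b c d ha hc i j ε hε t
    obtain ⟨z, hz⟩ := hZ r s a b c d ha hc
    obtain ⟨N₀, h3⟩ := h1 z i j (ε / 2) (by positivity)
    obtain ⟨m, hm⟩ := exists_nat_gt (2 * t / ε)
    refine ⟨max N₀ m, fun N hN hNE => ?_⟩
    have h4 := h3 N (le_trans (le_max_left _ _) hN) hNE
    have h5 := Pool.Agent.P8H6.Irw.wn_shift (Pool.Agent.P8H6.Irw.ZZ_le (hVQ z) (α i)) (K j N) N t
    have h6 : ∀ n, ‖∑ h ∈ range (K j N), (W a b c d (n + t + h) : ℂ) * e (α i * h)‖ =
        Pool.Agent.P8H6.Irw.wn (Pool.Agent.P8H6.Irw.ZZ (V z) (α i)) (K j N) (n + t) := by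
      intro n
      unfold Pool.Agent.P8H6.Irw.wn
      have h7 : ∑ h ∈ range (K j N), Pool.Agent.P8H6.Irw.ZZ (V z) (α i) (n + t + h) =
          e (α i * (n + t)) * ∑ h ∈ range (K j N), (W a b c d (n + t + h) : ℂ) * e (α i * h) := by
        rw [mul_sum]
        refine sum_congr rfl fun h _ => ?_
        rw [hz, show α i * ((n + t + h : ℕ) : ℝ) = α i * (n + t) + α i * h by push_cast; ring, e_add]
        ring
      rw [h7, norm_mul, e_norm, one_mul]
    rw [sum_congr rfl fun n _ => h6 n]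
    refine h5.trans ?_
    have h8 : (2 : ℝ) * t ≤ ε * N := by
      have h9 : 2 * (t : ℝ) / ε ≤ N := hm.le.trans (by exact_mod_cast le_trans (le_max_right _ _) hN)
      rw [div_le_iff₀ hε] at h9
      linarith
    have h9 : (2 * (t : ℝ)) * K j N ≤ (ε * N) * K j N := mul_le_mul_of_nonneg_right h8 (Nat.cast_nonneg _)
    have h10 : ε / 2 * K j N * N = (ε * N) * K j N / 2 := by ring
    have h11 : ε * K j N * N = (ε * N) * K j N := by ring
    rw [h11]
    rw [h10] at h4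
    linarith
  -- long sums
  have hlong : ∀ (r s : ℕ) (a b : Fin r → ℕ) (c d : Fin s → ℕ), (∀ j, 1 ≤ a j) → (∀ i, 1 ≤ c i) →
      ∀ i : ℕ, ∀ ε : ℝ, 0 < ε → ∃ N₀ : ℕ, ∀ N : ℕ, N₀ ≤ N → N ∉ E₂ → ∀ Y X : ℕ, Y ≤ X → X ≤ N →
        ‖∑ n ∈ Ioc Y X, (W a b c d n : ℂ) * e (α i * n)‖ ≤ ε * N := by
    intro r s a b c d ha hc i ε hε
    obtain ⟨z, hz⟩ := hZ r s a b c d ha hc
    obtain ⟨N₀, h3⟩ := h2 z i ε hε
    refine ⟨N₀, fun N hN hNE Y X hYX hXN => ?_⟩
    have h4 := h3 N hN hNE Y X hYX hXN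
    rw [sum_congr rfl fun n _ => hz i n] at h4
    exact h4
  refine ⟨E₁ ∪ E₂, Pool.Agent.Y842.EL.LZ_union hE₁ hE₂, ?_, ?_, ?_⟩
  · intro i j ε hε
    obtain ⟨N₀, h3⟩ := hshort 1 0 (fun _ => 1) (fun _ => 0) (fun _ => 1) (fun _ => 0) (fun _ => le_rfl)
      (fun _ => le_rfl) i j ε hε 1
    refine ⟨N₀, fun N hN hNE => ?_⟩
    have hNE1 : N ∉ E₁ := fun h => hNE (Or.inl h)
    have h4 := h3 N hN hNE1
    have hW : ∀ n, W (r := 1) (s := 0) (fun _ => 1) (fun _ => 0) (fun _ => 1) (fun _ => 0) n = lam n.factorial := by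
      intro n
      unfold W
      simp
    have h5 : ∑ n ∈ Icc 1 N, ‖∑ k ∈ Icc 1 (K j N), (P n k : ℂ) * e (α i * k)‖ ≤ ε * K j N * N := by
      refine le_trans (le_of_eq ?_) h4
      have e1 : ∑ n ∈ Icc 1 N, ‖∑ k ∈ Icc 1 (K j N), (P n k : ℂ) * e (α i * k)‖ =
          ∑ n ∈ range N, ‖∑ k ∈ Icc 1 (K j N), (P (n + 1) k : ℂ) * e (α i * k)‖ := by
        rw [range_eq_Ico, sum_Ico_add' (fun n => ‖∑ k ∈ Icc 1 (K j N), (P n k : ℂ) * e (α i * k)‖) 0 N 1]
        rfl
      rw [e1]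
      refine sum_congr rfl fun n _ => ?_
      have e2 : ∑ k ∈ Icc 1 (K j N), (P (n + 1) k : ℂ) * e (α i * k) =
          (lam n.factorial : ℂ) * e (α i) * ∑ h ∈ range (K j N), (W (r := 1) (s := 0) (fun _ => 1) (fun _ => 0)
            (fun _ => 1) (fun _ => 0) (n + 1 + h) : ℂ) * e (α i * h) := by
        have e3 : ∑ k ∈ Icc 1 (K j N), (P (n + 1) k : ℂ) * e (α i * k) =
            ∑ k ∈ range (K j N), (P (n + 1) (k + 1) : ℂ) * e (α i * ((k + 1 : ℕ) : ℝ)) := by
          rw [range_eq_Ico, sum_Ico_add' (fun k => (P (n + 1) k : ℂ) * e (α i * k)) 0 (K j N) 1]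
          rfl
        rw [e3, mul_sum]
        refine sum_congr rfl fun k _ => ?_
        rw [hW, P_eq, show α i * ((k + 1 : ℕ) : ℝ) = α i + α i * k by push_cast; ring, e_add,
          show n + (k + 1) = n + 1 + k by ring]
        push_cast
        ring
      rw [e2, norm_mul, norm_mul, e_norm, mul_one]
      have e4 : ‖(lam n.factorial : ℂ)‖ = 1 := by
        rw [Complex.norm_intCast]
        exact_mod_cast lam_abs _
      rw [e4, one_mul]
    refine ⟨h5, ?_⟩
    have e5 : ∑ k ∈ Icc 1 (K j N), (S k N : ℂ) * e (α i * k) =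
        ∑ n ∈ Icc 1 N, ∑ k ∈ Icc 1 (K j N), (P n k : ℂ) * e (α i * k) := by
      rw [sum_comm]
      refine sum_congr rfl fun k _ => ?_
      rw [← sum_mul]
      unfold S
      push_cast
      rfl
    rw [e5]
    exact (norm_sum_le _ _).trans h5
  · intro i ε hε
    obtain ⟨N₁, h3⟩ := hlong 1 0 (fun _ => 1) (fun _ => 0) (fun _ => 1) (fun _ => 0) (fun _ => le_rfl)
      (fun _ => le_rfl) i ε hε
    obtain ⟨N₂, h4⟩ := hlong 2 0 (fun t => (t : ℕ) + 1) (fun _ => 0) (fun _ => 1) (fun _ => 0) (fun _ => by omega)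
      (fun _ => le_rfl) i ε hε
    refine ⟨max N₁ N₂, fun N hN hNE Y X hYX hXN => ⟨?_, ?_⟩⟩
    · have h5 := h3 N (le_trans (le_max_left _ _) hN) (fun h => hNE (Or.inr h)) Y X hYX hXN
      refine le_trans (le_of_eq ?_) h5
      congr 1
      refine sum_congr rfl fun n _ => ?_
      unfold W
      simp
    · have h5 := h4 N (le_trans (le_max_right _ _) hN) (fun h => hNE (Or.inr h)) Y X hYX hXN
      refine le_trans (le_of_eq ?_) h5
      congr 1
      refine sum_congr rfl fun n _ => ?_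
      rw [P_eq]
      unfold W
      rw [Fin.prod_univ_two, Finset.univ_eq_empty (α := Fin 0), prod_empty, mul_one]
      simp only [Fin.isValue, Fin.val_zero, Fin.val_one, add_zero, zero_add, one_mul]
      rw [show (1 + 1) * n = n + n by ring]
  · intro r s a b c d ha hc _ i j ε hε
    obtain ⟨N₁, h3⟩ := hshort r s a b c d ha hc i j ε hε 2
    obtain ⟨N₂, h4⟩ := hlong r s a b c d ha hc i ε hε
    refine ⟨max N₁ N₂, fun N hN hNE => ⟨?_, ?_⟩⟩
    · have h5 := h3 N (le_trans (le_max_left _ _) hN) (fun h => hNE (Or.inl h))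
      refine le_trans (le_of_eq ?_) h5
      have e1 : ∑ n ∈ Icc 1 N, ‖∑ h ∈ Icc 1 (K j N), (W a b c d (n + h) : ℂ) * e (α i * h)‖ =
          ∑ n ∈ range N, ‖∑ h ∈ Icc 1 (K j N), (W a b c d (n + 1 + h) : ℂ) * e (α i * h)‖ := by
        rw [range_eq_Ico, sum_Ico_add' (fun n => ‖∑ h ∈ Icc 1 (K j N), (W a b c d (n + h) : ℂ) * e (α i * h)‖) 0 N 1]
        rfl
      rw [e1]
      refine sum_congr rfl fun n _ => ?_
      have e3 : ∑ h ∈ Icc 1 (K j N), (W a b c d (n + 1 + h) : ℂ) * e (α i * h) =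
          e (α i) * ∑ h ∈ range (K j N), (W a b c d (n + 2 + h) : ℂ) * e (α i * h) := by
        have e4 : ∑ h ∈ Icc 1 (K j N), (W a b c d (n + 1 + h) : ℂ) * e (α i * h) =
            ∑ h ∈ range (K j N), (W a b c d (n + 1 + (h + 1)) : ℂ) * e (α i * ((h + 1 : ℕ) : ℝ)) := by
          rw [range_eq_Ico, sum_Ico_add' (fun h => (W a b c d (n + 1 + h) : ℂ) * e (α i * h)) 0 (K j N) 1]
          rfl
        rw [e4, mul_sum]
        refine sum_congr rfl fun h _ => ?_
        rw [show α i * ((h + 1 : ℕ) : ℝ) = α i + α i * h by push_cast; ring, e_add,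
          show n + 1 + (h + 1) = n + 2 + h by ring]
        ring
      rw [e3, norm_mul, e_norm, one_mul]
    · exact h4 N (le_trans (le_max_right _ _) hN) (fun h => hNE (Or.inr h))

end Pool.Agent.Results.MP_a14ce1_nt.FactorialPhases
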