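import Mathlib
import Pool.Agent.P8H6.Chw.Inst

/-!
# Products of `k` consecutive values of the Liouville function: the bound `N / 3` for almost all lengths `k`

At all scales `N` outside a set of logarithmic density zero, `|S_k(N)| ≤ (1/3 + ε) N` for all but `ε N` of the lengths
`k ≤ N`. (The starting results have `1/2` in place of `1/3`, for almost all `k` at every scale, and for every fixed
`k` at almost all scales.)

The input from the starting files is the two point theorem with linear phases, uniformly in the phase, at almost all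
scales (`Pool.Agent.Y842.PH.one_E`): `∑_{n ≤ N} λ(n) λ(n + 1) e(α n) = o(N)`, and Davenport's estimate for
`∑_{n ≤ N} λ(n) e(α n)`, in the form of `Pool.Agent.TH823.MRS`. The new idea: for `z n = λ(n!)` the two estimates say
that `z n z (n + 1)` and `z n z (n + 2)` are orthogonal to linear phases. If `a` is the part of `z` on boundedly many
frequencies, so are the products `a(n) a(n + 1) z(n) z(n + 1)`, ..., hence
`∑ |a(n) z(n) + a(n + 1) z(n + 1) + a(n + 2) z(n + 2)| ^ 2 = 3 ∑ |a(n)| ^ 2 + o(N)`, while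
`∑ (a(n) z(n) + a(n + 1) z(n + 1) + a(n + 2) z(n + 2)) = 3 ∑ |a(n)| ^ 2 + o(N)`, and the inequality of Cauchy and Schwarz
gives `∑ |a(n)| ^ 2 ≤ (1/3 + o(1)) N`: at most one third of the energy of `λ(n!)` is on few frequencies. The rest does not
contribute to `∑ z n z (n + k)` for almost all `k`.
-/

set_option autoImplicit false

namespace Pool.Agent.Results.MP_a14ce1_nt.OneThird

open Finset Filter Topology

/-- The Liouville function. -/
noncomputable def lam (n : ℕ) : ℝ := (-1) ^ ArithmeticFunction.cardFactors n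

/-- The sum over `Y < n ≤ X` of `λ(n) λ(n + 1) ... λ(n + k - 1)`, that is `S_k(X) - S_k(Y)`; for `Y = 0` it is
`S_k(X)`. -/
noncomputable def S (k Y X : ℕ) : ℝ := ∑ n ∈ Ioc Y X, ∏ i ∈ range k, lam (n + i)

open Classical in
/-- `E` has logarithmic density zero. -/
def LogDensityZero (E : Set ℕ) : Prop :=
  Tendsto (fun X : ℕ => (∑ n ∈ Icc 1 X, if n ∈ E then (1 : ℝ) / n else 0) / Real.log X) atTop (𝓝 0)

open Classical in
/-- There is a set `E` of logarithmic density zero such that for every `ε > 0` and all large `N` outside `E`: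

(A) for all `k ≤ N` with at most `ε N` exceptions `|S_k(X) - S_k(Y)| ≤ (X - Y) / 3 + ε N` for all `Y ≤ X ≤ N`;

(B) (correlations of `r` values of `λ(n!)`, `r` fixed) for all `H` with `ε N ≤ H ≤ N`, all `M 1, ..., M r ≤ N`, all
weights `ξ` bounded by `1` and all `Y ≤ X ≤ N`, the mean square over the shifts `k 1, ..., k r < H` of
`∑_{Y < n ≤ X} ξ(n) λ((n + M 1 + k 1)!) ... λ((n + M r + k r)!)` is at most `(X - Y) ^ 2 / 3 ^ r + ε N ^ 2`;

(C) for any fixed number `R` of frequencies `t / N`, the sum of the squares of the absolute values of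
`∑_{n ≤ N} λ(n!) exp(-2 π i n t / N)` over these frequencies is at most `(1/3 + ε) N ^ 2`.

(D) is the identity `λ(n) λ(n + 1) ... λ(n + k - 1) = λ((n - 1)!) λ((n + k - 1)!)`, by which (B), with `r` even, is about
products of `λ` over unions of `r / 2` blocks of consecutive integers with moving ends. -/
theorem result : ∃ E : Set ℕ, LogDensityZero E ∧
    (∀ ε : ℝ, 0 < ε → ∃ N₀ : ℕ, ∀ N : ℕ, N₀ ≤ N → N ∉ E →
      (((Icc 1 N).filter (fun k => ¬ ∀ Y X : ℕ, Y ≤ X → X ≤ N → |S k Y X| ≤ ((X : ℝ) - Y) / 3 + ε * N)).card : ℝ) ≤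
        ε * N) ∧
    (∀ (r : ℕ) (ε : ℝ), 0 < ε → ∃ N₀ : ℕ, ∀ N : ℕ, N₀ ≤ N → N ∉ E → ∀ H : ℕ, ε * N ≤ H → H ≤ N →
      ∀ M : Fin r → ℕ, (∀ i, M i ≤ N) → ∀ ξ : ℕ → ℂ, (∀ n, ‖ξ n‖ ≤ 1) → ∀ Y X : ℕ, Y ≤ X → X ≤ N →
        ∑ k ∈ Fintype.piFinset (fun _ : Fin r => range H),
          ‖∑ n ∈ Ioc Y X, ξ n * ((∏ i, lam (n + M i + k i).factorial : ℝ) : ℂ)‖ ^ 2 ≤
            (H : ℝ) ^ r * (((X : ℝ) - Y) ^ 2 / 3 ^ r + ε * N ^ 2)) ∧
    (∀ (R : ℕ) (ε : ℝ), 0 < ε → ∃ N₀ : ℕ, ∀ N : ℕ, N₀ ≤ N → N ∉ E → ∀ F : Finset ℕ, F ⊆ range N → F.card ≤ R →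
      ∑ t ∈ F, ‖∑ n ∈ Icc 1 N, (lam n.factorial : ℂ) *
        Complex.exp (-(2 * Real.pi * Complex.I * n * t / N))‖ ^ 2 ≤ (1 / 3 + ε) * N ^ 2) ∧
    (∀ k n : ℕ, 1 ≤ n → ∏ i ∈ range k, lam (n + i) = lam (n - 1).factorial * lam (n + k - 1).factorial) := by
  obtain ⟨E, hE, h1⟩ := Pool.Agent.P8H6.Chw.exc
  have hfa : ∀ n, Pool.Agent.P8H6.Chw.fa n = lam n.factorial := fun _ => rfl
  -- the identity
  have hlf : ∀ n : ℕ, lam (n + 1).factorial = lam (n + 1) * lam n.factorial := by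
    intro n
    unfold lam
    rw [Nat.factorial_succ, ArithmeticFunction.cardFactors_mul (by omega) (Nat.factorial_ne_zero n), pow_add]
  have hsq : ∀ n : ℕ, lam n * lam n = 1 := by
    intro n
    have h : lam n = 1 ∨ lam n = -1 := neg_one_pow_eq_or ℝ _
    rcases h with h | h <;> rw [h] <;> norm_num
  have hid : ∀ k n : ℕ, ∏ i ∈ range k, lam (n + 1 + i) = lam n.factorial * lam (n + k).factorial := by
    intro k n
    induction k with
    | zero => rw [range_zero, prod_empty, add_zero, hsq]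
    | succ k ih =>
      rw [prod_range_succ, ih, show n + (k + 1) = n + k + 1 by ring, hlf, show n + 1 + k = n + k + 1 by ring]
      ring
  have hid' : ∀ k n : ℕ, 1 ≤ n → ∏ i ∈ range k, lam (n + i) = lam (n - 1).factorial * lam (n + k - 1).factorial := by
    intro k n hn
    have h := hid k (n - 1)
    rw [show n - 1 + 1 = n by omega, show n - 1 + k = n + k - 1 by omega] at h
    exact h
  have hS : ∀ k Y X : ℕ, S k Y X = ∑ n ∈ Ico Y X, Pool.Agent.P8H6.Chw.fa n * Pool.Agent.P8H6.Chw.fa (n + k) := by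
    intro k Y X
    unfold S
    have h2 : ∑ n ∈ Ico Y X, Pool.Agent.P8H6.Chw.fa n * Pool.Agent.P8H6.Chw.fa (n + k) =
        ∑ n ∈ Ico Y X, ∏ i ∈ range k, lam (n + 1 + i) := by
      refine sum_congr rfl fun n _ => ?_
      rw [hid]
      rfl
    rw [h2, sum_Ico_add' (fun n => ∏ i ∈ range k, lam (n + i)) Y X 1]
    apply sum_congr _ fun _ _ => rfl
    ext n
    rw [mem_Ioc, mem_Ico]
    omega
  refine ⟨E, hE, ?_, ?_, ?_, hid'⟩
  · intro ε hε
    obtain ⟨N₀, h2⟩ := Pool.Agent.P8H6.Chw.aa _ Pool.Agent.P8H6.Chw.fa_abs E h1 ε hε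
    refine ⟨N₀, fun N hN hNE => ?_⟩
    obtain ⟨K, hK, h3⟩ := h2 N hN hNE
    refine le_trans ?_ hK
    rw [Nat.cast_le]
    apply card_le_card
    intro k hk
    rw [mem_filter, mem_Icc] at hk
    by_contra hkK
    apply hk.2
    intro Y X hYX hX
    rw [hS]
    exact h3 k hk.1.2 hkK Y X hYX (by omega)
  · intro r ε hε
    exact Pool.Agent.P8H6.Chw.mom _ Pool.Agent.P8H6.Chw.fa_abs E h1 r ε hε
  · intro R ε hε
    obtain ⟨N₀, h2⟩ := h1 (ε / (8 * (R + 1) ^ 2)) (by positivity)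
    obtain ⟨N₁, hN₁⟩ := exists_nat_ge (12 * R / ε)
    refine ⟨N₀ + N₁ + 2, fun N hN hNE F hF hFR => ?_⟩
    have hN0 : (0 : ℝ) < N := by exact_mod_cast (by omega : 0 < N)
    have h3 := Pool.Agent.P8H6.Chw.third _ 1 (N + 1) N F Pool.Agent.P8H6.Chw.fa_abs (by omega) (by omega) (by omega) hF
      (ε / (8 * (R + 1) ^ 2) * N) (fun α y hy => (h2 N (by omega) hNE α y (by omega)).1)
      (fun α y hy => (h2 N (by omega) hNE α y (by omega)).2)
    unfold Pool.Agent.P8H6.Chw.en at h3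
    rw [div_le_iff₀ hN0, Nat.add_sub_cancel] at h3
    have h4 : ∑ t ∈ F, ‖∑ n ∈ Icc 1 N, (lam n.factorial : ℂ) *
        Complex.exp (-(2 * Real.pi * Complex.I * n * t / N))‖ ^ 2 =
        ∑ ξ ∈ F, ‖Pool.Agent.P8H6.Chw.U Pool.Agent.P8H6.Chw.fa 1 (N + 1) N ξ‖ ^ 2 := by
      refine sum_congr rfl fun t _ => ?_
      unfold Pool.Agent.P8H6.Chw.U
      congr 2
      have h5 : Icc 1 N = Ico 1 (N + 1) := rfl
      rw [h5]
      refine sum_congr rfl fun n _ => ?_
      rw [hfa]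
      unfold Pool.Agent.Helper602.MK.ee
      congr 2
      push_cast
      ring
    rw [h4]
    refine h3.trans ?_
    have hR : (F.card : ℝ) ≤ R := by exact_mod_cast hFR
    have hF0 : (0 : ℝ) ≤ F.card := Nat.cast_nonneg _
    have h5 : 6 * (F.card : ℝ) ≤ ε / 2 * N := by
      have h6 : 12 * (R : ℝ) / ε ≤ N := hN₁.trans (by exact_mod_cast (by omega : N₁ ≤ N))
      rw [div_le_iff₀ hε] at h6
      linarith
    have h6 : 4 * (F.card : ℝ) ^ 2 * (ε / (8 * (R + 1) ^ 2) * N) ≤ ε / 2 * N := by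
      have h7 : (F.card : ℝ) ^ 2 ≤ ((R : ℝ) + 1) ^ 2 := pow_le_pow_left₀ hF0 (by linarith) 2
      calc 4 * (F.card : ℝ) ^ 2 * (ε / (8 * (R + 1) ^ 2) * N) ≤
            4 * ((R : ℝ) + 1) ^ 2 * (ε / (8 * (R + 1) ^ 2) * N) := by
              apply mul_le_mul_of_nonneg_right _ (by positivity)
              exact mul_le_mul_of_nonneg_left h7 (by norm_num)
        _ = ε / 2 * N := by
              field_simp
              ring
    have h7 : ((N : ℝ) / 3 + 6 * F.card + 4 * (F.card : ℝ) ^ 2 * (ε / (8 * (R + 1) ^ 2) * N)) * N ≤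
        (N / 3 + ε / 2 * N + ε / 2 * N) * N := by
      apply mul_le_mul_of_nonneg_right _ hN0.le
      linarith
    refine h7.trans (le_of_eq ?_)
    ring

end Pool.Agent.Results.MP_a14ce1_nt.OneThird
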