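import Pool.Agent.P8H14.QP.D2

/-!
# Products of `k` consecutive values of the Liouville function, for all but `N ^ (1 - c / log log N)` lengths `k`,
with the error `N / (log N) ^ A`, at most scales

From the starting files: the zero-free region inputs and the kernels (`Pool.Agent.W66`), the large sieve
(`Pool.Agent.Helper112`), the bounds on the minor arcs by Vaughan's identity (`Pool.Agent.W93`), the moments of
Weyl sums (`Pool.Agent.H373R2`), the pairing of neighbouring lengths (`Pool.Agent.TH893.CL`, `Pool.Agent.TH823.PS`).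
New (`Pool.Agent.P8H14.QP`): the mean square of `∑ λ(n) e(n k / X)` over any `exp(c log N / log log N)` frequencies is
smaller than `N ^ 2` by any fixed power of `log N`, at most scales (bounds for `1 / L(s, χ)` for all the characters of
conductor up to `exp(c log N / log log N)` at scales without exceptional zeros).
-/

set_option autoImplicit false

namespace Pool.Agent.Results.MP_a14ce1_nt.QuasiPowerLengths

open Finset

/-- The product `λ(a n + b) λ(a (n + 1) + b) ... λ(a (n + k - 1) + b)` of the values of the Liouville function at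
`k` consecutive terms of a progression. For `a = 1` and `b = 0` it is `λ(n) λ(n + 1) ... λ(n + k - 1)`. -/
noncomputable def prodL (a b k n : ℕ) : ℝ := ∏ j ∈ range k, (-1 : ℝ) ^ ArithmeticFunction.cardFactors (a * (n + j) + b)

/-- The sum of the products over the interval `Y < n ≤ X`. For `a = 1`, `b = 0`, `Y = 0` it is `S_k(X)`. -/
noncomputable def sumL (a b k Y X : ℕ) : ℝ := ∑ n ∈ Ioc Y X, prodL a b k n

open Classical in
/-- The number of the elements of the finite set `I` with the property `E`. -/
noncomputable def num (I : Finset ℕ) (E : ℕ → Prop) : ℝ := ((I.filter E).card : ℝ)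

/-- The additive energy of order `p` of the family `s 1, ..., s x`: the number of the solutions of
`s (v 1) + ... + s (v p) = s (w 1) + ... + s (w p)` with all `v i`, `w i` in `{1, ..., x}`. -/
def energy (p x : ℕ) (s : ℕ → ℤ) : ℕ :=
  (((Fintype.piFinset fun _ : Fin p => Icc 1 x) ×ˢ (Fintype.piFinset fun _ : Fin p => Icc 1 x)).filter
    (fun q => ∑ i, s (q.1 i) = ∑ i, s (q.2 i))).card

open Classical in
/-- The property `P` holds at most scales: the set of the positive integers `N` with the property `P` has upper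
logarithmic density at least `1 - ε`. Precisely, for arbitrarily large `R` the sum of `1 / N` over the `N ≤ R`
without the property is at most `ε log R`. -/
def MostScales (ε : ℝ) (P : ℕ → Prop) : Prop :=
  ∀ R₀ : ℕ, ∃ R : ℕ, R₀ ≤ R ∧ ∑ N ∈ (Icc 1 R).filter (fun N => ¬ P N), (1 : ℝ) / N ≤ ε * Real.log R

/-- The saving: `sav c N = N ^ (c / log log N)`. It is larger than every fixed power of `log N`. -/
noncomputable def sav (c : ℝ) (N : ℕ) : ℝ := Real.exp (c * Real.log N / Real.log (Real.log N))

/-- The length `k` is good for the weights `ξ`: on every interval `(Y, X]` with `X ≤ N` the sum of the products of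
`k` consecutive values with the weights `ξ` is at most half of the length of the interval, up to `N / (log N) ^ A`. -/
def Half (A a b N : ℕ) (ξ : ℕ → ℂ) (k : ℕ) : Prop :=
  ∀ Y X : ℕ, Y ≤ X → X ≤ N → ‖∑ n ∈ Ioc Y X, ξ n * (prodL a b k n : ℂ)‖ ≤ ((X : ℝ) - Y) / 2 + N / Real.log N ^ A

/-- Let `ε > 0`, `a ≥ 1`, the integers `A`, `B`, `p ≥ 1` and the polynomial `f` of degree `d ≥ 1` with integer
coefficients be fixed. There is a `c > 0`, depending on the fixed data only, such that the following three
statements hold at most scales `N`, that is on a set of `N` of upper logarithmic density at least `1 - ε`.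
Write `y = N ^ (c / log log N)`.

* For all but `N / y` of the lengths `k ≤ N`, the sums `S_k` and `S_{k+1}` of the products of `k` and of `k + 1`
  consecutive values of `λ` satisfy `|S_k(I)| + |S_{k+1}(I)| ≤ |I| / 2 + N / (log N) ^ A` on all the intervals
  `I = (Y, X]` with `X ≤ N`; this holds simultaneously for the progressions `a n + b` with `b` in an arbitrary set
  of at most `y` integers `b ≤ N`.
* Arbitrary complex weights `ξ`, bounded by `1` (up to `y` of them simultaneously, each with its own `b ≤ B N`): for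
  all but `x / y` of the positive members `k` of an arbitrary family `s 1, ..., s x` of integers in `[-B N, B N]`,
  whose additive energy of order `p` is at most `y` times the minimal possible size `x ^ (2 p) / N`,
  `|∑_{n ∈ I} ξ(n) λ(a n + b) ... λ(a (n + k - 1) + b)| ≤ |I| / 2 + N / (log N) ^ A` on all the intervals `I`.
* The same for all but `x / y` of the positive values `k = f m`, `m ≤ x`, of the polynomial `f`, for every `x` with
  `N / y ≤ x ^ d ≤ B N`. -/
theorem result (a : ℕ) (ha : 1 ≤ a) (A B p : ℕ) (hp : 1 ≤ p) (f : Polynomial ℤ) (hf : 1 ≤ f.natDegree)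
    (ε : ℝ) (hε : 0 < ε) : ∃ c : ℝ, 0 < c ∧ MostScales ε (fun N =>
      (∀ Bs : Finset ℕ, (∀ b ∈ Bs, b ≤ N) → (Bs.card : ℝ) ≤ sav c N →
        num (Icc 1 N) (fun k => ¬ ∀ b ∈ Bs, ∀ Y X : ℕ, Y ≤ X → X ≤ N →
          |sumL a b k Y X| + |sumL a b (k + 1) Y X| ≤ ((X : ℝ) - Y) / 2 + N / Real.log N ^ A) ≤ N / sav c N) ∧
      (∀ (x : ℕ) (s : ℕ → ℤ), (∀ m ∈ Icc 1 x, |s m| ≤ B * N) →
        (energy p x s : ℝ) * N ≤ sav c N * (x : ℝ) ^ (2 * p) → ∀ L : ℕ, (L : ℝ) ≤ sav c N →
        ∀ (b : Fin L → ℕ) (ξ : Fin L → ℕ → ℂ), (∀ l, b l ≤ B * N) → (∀ l n, ‖ξ l n‖ ≤ 1) →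
        num (Icc 1 x) (fun m => 0 < s m ∧ ¬ ∀ l, Half A a (b l) N (ξ l) (s m).toNat) ≤ x / sav c N) ∧
      (∀ x : ℕ, x ^ f.natDegree ≤ B * N → (N : ℝ) ≤ sav c N * (x : ℝ) ^ f.natDegree →
        ∀ L : ℕ, (L : ℝ) ≤ sav c N →
        ∀ (b : Fin L → ℕ) (ξ : Fin L → ℕ → ℂ), (∀ l, b l ≤ B * N) → (∀ l n, ‖ξ l n‖ ≤ 1) →
        num (Icc 1 x) (fun m => 0 < f.eval (m : ℤ) ∧
          ¬ ∀ l, Half A a (b l) N (ξ l) (f.eval (m : ℤ)).toNat) ≤ x / sav c N)) := by
  have hH : ∀ (b N : ℕ) (ξ : ℕ → ℂ) (k : ℕ), Half A a b N ξ k ↔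
      Pool.Agent.TH823.PS.Len.Half a b N (1 / Real.log N ^ A) ξ k := by
    intro b N ξ k
    unfold Half Pool.Agent.TH823.PS.Len.Half
    simp only [div_mul_eq_mul_div, one_mul]
    exact Iff.rfl
  simp only [hH]
  exact Pool.Agent.P8H14.QP.Len.lengths ha A B p hp f hf hε

end Pool.Agent.Results.MP_a14ce1_nt.QuasiPowerLengths
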