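import Pool.Agent.P8H6.Uni.Fin

/-!
# Products of values of the Liouville function and polynomial phases, uniformly in the polynomial

Let `w(N) → ∞` be arbitrarily slow. For all `N` outside a set of logarithmic density zero the sums of
`λ(n) λ(n + 1) ... λ(n + k - 1) e(P(n))` over the subintervals of `[1, N]` are `o(N)`, uniformly over all real
polynomials `P` of degree at most `d` whose coefficient of `n^d` is not close to a rational number with denominator at
most `w(N)`, for every `k` and every `d ≥ 1`; equivalently, `P(n)` modulo one is equidistributed with respect to these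
products: the sets `{n : {P(n)} ∈ [u, v)}` do not bias them. The same for the products of the values at arbitrary
linear forms.

Proof: the entropy decrement argument (`Pool.Agent.Y958.TC`, starting files) along ultrafilters, for the alphabet of
the values of `λ` and the digits `⌊x (n + 1)⌋ - ⌊x n⌋`, where `x` is a sequence which at the scale `N` is `α_N n`, `α_N`
being the frequency which is bad for `N`. The scales are grouped in blocks and cells so that one frequency serves for a
dilated scale `N / p` and the scale `N`; for slow frequencies (`α_N → 0`) the digits are mostly zero, and the number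
of digits is adapted to the frequency. Packages by helper93 (equidistribution), helper52 (entropy of the digits,
partial sums), helper43 (van der Corput, Bohr sets); the formulation for moving frequencies: helper70.
-/

set_option autoImplicit false

namespace Pool.Agent.Results.MP_a14ce1_nt.UniformPhases

open Finset Filter Topology

/-- `e(x) = exp (2 π i x)`. -/
noncomputable def e (x : ℝ) : ℂ := Complex.exp (2 * Real.pi * Complex.I * x)

/-- The Liouville function. -/
def lam (n : ℕ) : ℤ := (-1) ^ ArithmeticFunction.cardFactors n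

/-- `λ(n) λ(n + 1) ... λ(n + k - 1)`. Its sum over `1 ≤ n ≤ x` is `S_k(x)`. -/
def L (k n : ℕ) : ℤ := ∏ i ∈ range k, lam (n + i)

open Classical in
/-- `E` has logarithmic density zero. -/
def LogDensityZero (E : Set ℕ) : Prop :=
  Tendsto (fun X : ℕ => (∑ n ∈ Icc 1 X, if n ∈ E then (1 : ℝ) / n else 0) / Real.log X) atTop (𝓝 0)

/-- The values of `f` are `-1`, `0`, `1`, and for every large prime `p` there is a sign `c p` with
`f (p n) = c p * f n` for all `n` which are not divisible by `p`. (For example the Liouville and the Moebius function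
and all multiplicative functions with these values which do not vanish at large primes.) -/
def Signed (f : ℕ → ℤ) : Prop :=
  (∀ n, |f n| ≤ 1) ∧ ∃ (P₀ : ℕ) (c : ℕ → ℤ), ∀ p : ℕ, p.Prime → P₀ ≤ p →
    |c p| = 1 ∧ ∀ n, ¬ p ∣ n → f (p * n) = c p * f n

/-- `α` is on the minor arcs for the scale `N` and the level `w`: `N |q α - a| > w` for all `1 ≤ q ≤ w` and all
integers `a`. -/
def Minor (w N : ℕ) (α : ℝ) : Prop := ∀ q : ℕ, 1 ≤ q → q ≤ w → ∀ a : ℤ, (w : ℝ) < N * |q * α - a|

open Classical in
/-- For all `d ≥ 1`, `ε > 0` and all large `N` outside `E`, for ALL real polynomials `P` of degree at most `d` such that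
the coefficient of `x^d` is on the minor arcs for the level `w(N)`, and for all `Y ≤ X ≤ N`:

`|∑_{Y < n ≤ X} G(n) e(P(n))| ≤ ε N`, and for all `0 ≤ u ≤ v ≤ 1`

`|∑_{Y < n ≤ X, u ≤ {P(n)} < v} G(n) - (v - u) ∑_{Y < n ≤ X} G(n)| ≤ ε N`.

How large `N` has to be depends on `d`, `ε` (and `G`, `w`, `E`), not on `P`, `X`, `Y`, `u`, `v`. -/
def NoPhases (G : ℕ → ℤ) (w : ℕ → ℕ) (E : Set ℕ) : Prop :=
  ∀ d : ℕ, 1 ≤ d → ∀ ε : ℝ, 0 < ε → ∃ N₀ : ℕ, ∀ N : ℕ, N₀ ≤ N → N ∉ E →
    ∀ P : Polynomial ℝ, P.natDegree ≤ d → Minor (w N) N (P.coeff d) → ∀ Y X : ℕ, Y ≤ X → X ≤ N →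
      ‖∑ n ∈ Ioc Y X, (G n : ℂ) * e (P.eval (n : ℝ))‖ ≤ ε * N ∧
      ∀ u v : ℝ, 0 ≤ u → u ≤ v → v ≤ 1 →
        |∑ n ∈ (Ioc Y X).filter (fun n : ℕ => Int.fract (P.eval (n : ℝ)) ∈ Set.Ico u v), (G n : ℝ) -
          (v - u) * ∑ n ∈ Ioc Y X, (G n : ℝ)| ≤ ε * N

/-- Let `w(N) → ∞` and let `f 0, f 1, ...` be functions with the property `Signed`. There is a set `E` of logarithmic
density zero such that `NoPhases G w E` holds for `G(n) = λ(n) λ(n + 1) ... λ(n + k - 1)`, for every `k`, and for
`G(n) = f_1(a_1 n + b_1) ... f_k(a_k n + b_k)`, for all `k`, all integers `a_i ≥ 1`, `b_i ≥ 0` and all `f_i` from the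
given functions. -/
theorem result (f : ℕ → ℕ → ℤ) (hf : ∀ j, Signed (f j)) (w : ℕ → ℕ) (hw : Tendsto w atTop atTop) :
    ∃ E : Set ℕ, LogDensityZero E ∧ (∀ k : ℕ, NoPhases (L k) w E) ∧
      (∀ (k : ℕ) (s a b : Fin k → ℕ), (∀ i, 1 ≤ a i) → NoPhases (fun n => ∏ i, f (s i) (a i * n + b i)) w E) := by
  -- the Liouville function
  have hlam : Pool.Agent.P8H6.Irr.Flip lam := by
    constructor
    · intro n
      unfold lam
      rw [abs_pow, abs_neg, abs_one, one_pow]
    · refine ⟨0, fun _ => -1, fun p hp _ => ⟨by norm_num, fun n hn => ?_⟩⟩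
      have hn0 : n ≠ 0 := by
        rintro rfl
        exact hn (dvd_zero p)
      unfold lam
      rw [ArithmeticFunction.cardFactors_mul hp.ne_zero hn0, ArithmeticFunction.cardFactors_apply_prime hp,
        pow_add, pow_one]
  set g : ℕ → ℕ → ℤ := fun j => match j with
    | 0 => lam
    | j + 1 => f j with hg
  have hgf : ∀ j, Pool.Agent.P8H6.Irr.Flip (g j) := by
    intro j
    cases j with
    | zero => exact hlam
    | succ j => exact ⟨(hf j).1, (hf j).2⟩
  have hL : ∀ k : ℕ, L k = fun n => ∏ i : Fin k, g ((fun _ => 0) i) ((fun _ => 1) i * n + (fun i : Fin k => (i : ℕ)) i) := by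
    intro k
    funext n
    unfold L
    rw [prod_range]
    simp only [one_mul]
    rfl
  obtain ⟨E, hE, h1⟩ := Pool.Agent.P8H6.Uni.np_all g hgf w hw
  refine ⟨E, hE, fun k => ?_, fun k s a b ha => ?_⟩
  · rw [hL k]
    exact h1 k (fun _ => 0) (fun _ => 1) (fun i => i) (fun _ => le_rfl)
  · exact h1 k (fun i => s i + 1) a b ha

end Pool.Agent.Results.MP_a14ce1_nt.UniformPhases
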